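import Pool.Agent.AT6.Stmts4
import Pool.Agent.Helper24_AT2.DZA
import Pool.Agent.Helper69_AT3.Flt

/-!
# Squad AT6, row FN7: the final theorem, the number of modular characters
-/

set_option autoImplicit false

open scoped BigOperators

noncomputable section

namespace Pool.Agent.PP.T6.H87

open Pool.Agent.Helper51_AWC Pool.Agent.Helper79_WRA Pool.Agent.PP Pool.Agent.PP.KF
open Pool.Agent.PP.K9 Pool.Agent.PP.K9.H97 Pool.Agent.PP.H75 Pool.Agent.PP.T3 Pool.Agent.PP.T2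

attribute [local instance] Ideal.Quotient.field

/-- from a defect group in the sense of `IsDef` to `Ld` -/
theorem ld_of_isDef {ℓ : ℕ} [Fact ℓ.Prime] {M : Ideal (integralClosure ℤ ℂ)} [M.IsMaximal]
    (hM : (ℓ : integralClosure ℤ ℂ) ∈ M) {G : Type} [Group G] [Finite G] {e : G → FF M}
    (he : IsBlk e) {χ : G → ℂ} (hχ : χ ∈ Irr G) (h1 : res M e χ = 1) {D : Subgroup G}
    (hD : ML.IsDef ℓ M χ D) (hab : ∀ x ∈ D, ∀ y ∈ D, x * y = y * x) :
    ∃ γ : G → FF M, Ld ℓ e D γ := by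
  have hF : GoodF ℓ (FF M) := H50.fld ℓ Fact.out M hM
  have hTp : Tp ℓ e D := T2.H24.tp_of_isDef hM he hχ h1 hD
  have hbr : br D e ≠ 0 := K9.H69.gd_br hTp.gd
  obtain ⟨γ, hγ1, hγ2, hγ3⟩ := H46.exists_blk hbr (Subgroup.centralizer (D : Set G))
  have hBx : Bx (Subgroup.centralizer (D : Set G)) γ := ⟨hγ1, hγ2⟩
  have hIx : Ix (Subgroup.centralizer (D : Set G)) (br D e) :=
    ⟨fun x hx => H66.br_of_not_mem hx,
      (H20.brm ℓ (FF M) hF G D _ hTp.pg le_rfl (K9.H69.cent_le_norm _)).2.2 _ he.1⟩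
  refine ⟨γ, he, hTp, hab, hBx, ?_⟩
  rw [hIx.comm hBx.ix]
  rcases hBx.dich' hIx with h2 | h2
  · exact h2
  · exfalso
    apply hγ3
    rw [hIx.comm hBx.ix, h2]

theorem fn7 (hLB6 : Lb6Stmt) (hDIM : DimStmt) : Fn7Stmt := by
  classical
  intro ℓ hℓ M _ hM G _ _ χ hχ D hD hab r hr
  obtain ⟨e, he, h1, -⟩ := H50.bid ℓ hℓ.out M hM G χ hχ
  obtain ⟨γ, hL⟩ := ld_of_isDef hM he hχ h1 hD hab
  obtain ⟨Q, -, hQ⟩ := hDIM ℓ M hM G e he.1
  let Q' : Fin (ln e) → G → ℂ := fun i g => if (orderOf g).Coprime ℓ then Q i g else 0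
  have hle : Submodule.span ℂ {f : G → ℂ | ∃ ψ ∈ IrrBlock M (MonoidHom.id G) χ,
      f = fun g => if (orderOf g).Coprime ℓ then ψ g else 0} ≤
      Submodule.span ℂ (Set.range Q') := by
    rw [Submodule.span_le]
    rintro f ⟨ψ, hψ, rfl⟩
    have hlab : labF M ψ = labF M χ := by
      funext c
      show red M (omega (MonoidHom.id _) ψ c) = red M (omega (MonoidHom.id _) χ c)
      rw [red_eq_iff (omega_integral _ hψ.1 _) (omega_integral _ hχ _)]
      exact hψ.2 c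
    have hψe : ψ ∈ IrrE M e := ⟨hψ.1, by rw [H50.res_of_lab hlab, h1]⟩
    have h2 : (fun g => if (orderOf g).Coprime ℓ then ψ g else 0) =
        ∑ i, T5.rip ℓ ψ (Q i) • Q' i := by
      funext g
      rw [Finset.sum_apply]
      by_cases hg : (orderOf g).Coprime ℓ
      · rw [if_pos hg, hQ ψ hψe g hg]
        refine Finset.sum_congr rfl fun i _ => ?_
        simp only [Q', Pi.smul_apply, smul_eq_mul, if_pos hg]
      · rw [if_neg hg]
        symm
        refine Finset.sum_eq_zero fun i _ => ?_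
        simp only [Q', Pi.smul_apply, smul_eq_mul, if_neg hg, mul_zero]
    rw [SetLike.mem_coe, h2]
    exact Submodule.sum_mem _ fun i _ =>
      Submodule.smul_mem _ _ (Submodule.subset_span ⟨i, rfl⟩)
  have hfin : FiniteDimensional ℂ (Submodule.span ℂ (Set.range Q')) :=
    FiniteDimensional.span_of_finite ℂ (Set.finite_range Q')
  calc Module.finrank ℂ (Submodule.span ℂ {f : G → ℂ | ∃ ψ ∈ IrrBlock M (MonoidHom.id G) χ,
        f = fun g => if (orderOf g).Coprime ℓ then ψ g else 0})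
      ≤ Module.finrank ℂ (Submodule.span ℂ (Set.range Q')) := Submodule.finrank_mono hle
    _ ≤ Fintype.card (Fin (ln e)) := finrank_range_le_card Q'
    _ = ln e := Fintype.card_fin _
    _ ≤ ℓ ^ (2 * r ^ 4 + 39 * r ^ 2) := hLB6 ℓ M hM r G e D γ hL hr

end Pool.Agent.PP.T6.H87
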